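import Mathlib

set_option autoImplicit false

namespace Pool.Agent.H394R3.SLM

theorem exists_a (N : ℕ) (hN : 2 ^ 24 ≤ N) : ∃ a : ℕ, 1130 ≤ a ∧ 13 * a ^ 2 + 6 * a + 1 ≤ N ∧
    N ≤ 13 * a ^ 2 + 32 * a + 19 := by
  have h1 : ∃ a : ℕ, N < 13 * (a + 1) ^ 2 + 6 * (a + 1) + 1 := ⟨N, by nlinarith⟩
  classical
  let a := Nat.find h1
  have ha : N < 13 * (a + 1) ^ 2 + 6 * (a + 1) + 1 := Nat.find_spec h1
  have hlow : 1130 ≤ a := by
    by_contra hlt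
    push Not at hlt
    have h2 : (a + 1) ^ 2 ≤ 1130 ^ 2 := Nat.pow_le_pow_left (by omega) 2
    norm_num at hN h2
    omega
  have hm : ¬ N < 13 * (a - 1 + 1) ^ 2 + 6 * (a - 1 + 1) + 1 := Nat.find_min h1 (by omega : a - 1 < a)
  have he : a - 1 + 1 = a := by omega
  rw [he] at hm
  refine ⟨a, hlow, by omega, ?_⟩
  have e : 13 * (a + 1) ^ 2 + 6 * (a + 1) + 1 = 13 * a ^ 2 + 32 * a + 20 := by ring
  omega

theorem numbers (N : ℕ) (hN : 2 ^ 24 ≤ N) : ∃ a p : ℕ, 2 ≤ a ∧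
    N = (a + a) * (4 * a + a) + a * (2 * a + a + 2) + (3 * a + a + 1) + p ∧
    ∀ m : ℕ, (a - 1) ^ (a * ((a + a) * (a * a)) - 2) ≤ 2 ^ (3 * m) * 3 ^ (a * ((a + a) * (a * a))) →
      N ^ 2 * Nat.log 2 N ≤ 1000 * m := by
  obtain ⟨a, ha, h1, h2⟩ := exists_a N hN
  refine ⟨a, N - (13 * a ^ 2 + 6 * a + 1), by omega, ?_, fun m hm => ?_⟩
  · have e : (a + a) * (4 * a + a) + a * (2 * a + a + 2) + (3 * a + a + 1) =
        13 * a ^ 2 + 6 * a + 1 := by ring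
    rw [e]; omega
  · set D := a * ((a + a) * (a * a)) with hD
    have hDe : D = 2 * a ^ 4 := by rw [hD]; ring
    set l := Nat.log 2 (a - 1) with hl
    have hl1 : 2 ^ l ≤ a - 1 := Nat.pow_log_le_self 2 (by omega)
    have hl2 : a - 1 < 2 ^ (l + 1) := Nat.lt_pow_succ_log_self (by norm_num) _
    have hl10 : 10 ≤ l := by
      rw [hl]
      exact Nat.le_log_of_pow_le (by norm_num) (by norm_num; omega)
    -- main exponent inequality
    have h3 : 2 ^ (l * (D - 2)) ≤ 2 ^ (3 * m + 2 * D) := by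
      calc 2 ^ (l * (D - 2)) = (2 ^ l) ^ (D - 2) := by rw [pow_mul]
        _ ≤ (a - 1) ^ (D - 2) := Nat.pow_le_pow_left hl1 _
        _ ≤ 2 ^ (3 * m) * 3 ^ D := hm
        _ ≤ 2 ^ (3 * m) * 4 ^ D := Nat.mul_le_mul_left _ (Nat.pow_le_pow_left (by norm_num) _)
        _ = 2 ^ (3 * m + 2 * D) := by rw [pow_add, pow_mul 2 2 D]; norm_num
    have h4 : l * (D - 2) ≤ 3 * m + 2 * D := (Nat.pow_le_pow_iff_right (by norm_num)).1 h3
    -- log N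
    have hN2 : N < 2 ^ (2 * l + 6) := by
      have e : 2 ^ (2 * l + 6) = 16 * (2 ^ (l + 1)) ^ 2 := by
        rw [← pow_mul, show (16 : ℕ) = 2 ^ 4 by norm_num, ← pow_add]
        congr 1; ring
      have h5 : a ≤ 2 ^ (l + 1) := by omega
      rw [e]
      have h6 : a ^ 2 ≤ (2 ^ (l + 1)) ^ 2 := Nat.pow_le_pow_left h5 2
      nlinarith
    have hL : Nat.log 2 N ≤ 2 * l + 5 := by
      have := Nat.log_lt_of_lt_pow (by omega : N ≠ 0) hN2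
      omega
    have h7 : (1130 : ℤ) ≤ a := by exact_mod_cast ha
    have hD2 : 2 ≤ D := by
      rw [hDe]
      have : 1 ≤ a ^ 4 := Nat.one_le_pow _ _ (by omega)
      omega
    have h4' : (l : ℤ) * (2 * (a : ℤ) ^ 4 - 2) ≤ 3 * m + 4 * (a : ℤ) ^ 4 := by
      have h8 : ((l * (D - 2) : ℕ) : ℤ) ≤ ((3 * m + 2 * D : ℕ) : ℤ) := by exact_mod_cast h4
      push_cast [Nat.cast_sub hD2] at h8
      rw [hDe] at h8
      push_cast at h8
      linarith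
    have hNz : (N : ℤ) ≤ 13 * (a : ℤ) ^ 2 + 32 * a + 19 := by exact_mod_cast h2
    have hlz : (10 : ℤ) ≤ l := by exact_mod_cast hl10
    have hN3 : 100 * (N : ℤ) ≤ 1303 * (a : ℤ) ^ 2 := by nlinarith
    have hN0 : (0 : ℤ) ≤ N := Int.natCast_nonneg _
    have hN4 : (N : ℤ) ^ 2 ≤ 170 * (a : ℤ) ^ 4 := by
      have h9 : (100 * (N : ℤ)) ^ 2 ≤ (1303 * (a : ℤ) ^ 2) ^ 2 := pow_le_pow_left₀ (by linarith) hN3 2
      have h10 : (0 : ℤ) ≤ (a : ℤ) ^ 4 := by positivity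
      nlinarith
    have ha4 : (1 : ℤ) ≤ (a : ℤ) ^ 4 := one_le_pow₀ (by linarith)
    have hfin : (N : ℤ) ^ 2 * (Nat.log 2 N : ℤ) ≤ 1000 * m := by
      have hLz : (Nat.log 2 N : ℤ) ≤ 2 * l + 5 := by exact_mod_cast hL
      have h11 : (N : ℤ) ^ 2 * (Nat.log 2 N : ℤ) ≤ 170 * (a : ℤ) ^ 4 * (2 * l + 5) :=
        mul_le_mul hN4 hLz (Int.natCast_nonneg _) (by positivity)
      have h12 : (a : ℤ) ^ 4 * (325 * l) ≤ (a : ℤ) ^ 4 * (980 * l - 6550) :=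
        mul_le_mul_of_nonneg_left (by linarith) (by linarith)
      have h14 : 2000 * (l : ℤ) ≤ (a : ℤ) ^ 4 * (325 * l) := by
        have h15 : (7 : ℤ) ≤ (a : ℤ) ^ 4 := by
          calc (7 : ℤ) ≤ 7 ^ 4 := by norm_num
            _ ≤ (a : ℤ) ^ 4 := pow_le_pow_left₀ (by norm_num) (by linarith) 4
        have h16 : (7 : ℤ) * (325 * l) ≤ (a : ℤ) ^ 4 * (325 * l) :=
          mul_le_mul_of_nonneg_right h15 (by linarith)
        linarith
      have e1 : 170 * (a : ℤ) ^ 4 * (2 * l + 5) = 340 * ((a : ℤ) ^ 4 * l) + 850 * (a : ℤ) ^ 4 := by ring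
      have e2 : (a : ℤ) ^ 4 * (980 * l - 6550) = 980 * ((a : ℤ) ^ 4 * l) - 6550 * (a : ℤ) ^ 4 := by ring
      have e3 : (a : ℤ) ^ 4 * (325 * l) = 325 * ((a : ℤ) ^ 4 * l) := by ring
      have e4 : (l : ℤ) * (2 * (a : ℤ) ^ 4 - 2) = 2 * ((a : ℤ) ^ 4 * l) - 2 * l := by ring
      rw [e1] at h11
      rw [e2, e3] at h12
      rw [e3] at h14
      rw [e4] at h4'
      linarith
    exact_mod_cast hfin

end Pool.Agent.H394R3.SLM
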